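import Pool.Agent.P8H14.EX.Stm
import Pool.Agent.P8H67.CF.Jac

/-!
# Project EX (helper14), packages ORT and VAR
-/

set_option autoImplicit false

namespace Pool.Agent.P8H44.EX

open Finset Pool.Agent.P8H14.CF Pool.Agent.P8H14.EX Pool.Agent.P8H67.CF

/-! ### Sums over periods -/

lemma jac_affine {m : ℕ} (ho : Odd m) (hs : ¬ IsSquare m) (α β : ℤ) (hβ : IsCoprime β (m : ℤ)) :
    ∑ x ∈ range m, jacobiSym (α + β * (x : ℤ)) m = 0 := by
  have hm : m ≠ 0 := by
    rintro rfl
    simp at ho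
  have : NeZero m := ⟨hm⟩
  obtain ⟨u, hu⟩ := exists_jac_neg ho hs
  set g : ZMod m → ℤ := fun z => jacobiSym ((z.val : ℕ) : ℤ) m with hg
  have hgc : ∀ a : ℤ, g (a : ZMod m) = jacobiSym a m := by
    intro a
    rw [hg]
    refine jacobiSym.mod_left' ?_
    have h1 : ((((a : ZMod m).val : ℕ) : ℤ) : ZMod m) = (a : ZMod m) := by
      rw [Int.cast_natCast, ZMod.natCast_zmod_val]
    exact (ZMod.intCast_eq_intCast_iff _ _ m).1 h1
  have hcast : ∀ F : ZMod m → ℤ, ∑ x ∈ range m, F (x : ZMod m) = ∑ z : ZMod m, F z := by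
    intro F
    refine sum_bij (fun x _ => (x : ZMod m)) (fun _ _ => mem_univ _) ?_ ?_ fun _ _ => rfl
    · intro a ha b hb hab
      have h1 := congrArg ZMod.val hab
      rwa [ZMod.val_natCast_of_lt (mem_range.1 ha), ZMod.val_natCast_of_lt (mem_range.1 hb)] at h1
    · intro z _
      exact ⟨z.val, mem_range.2 (ZMod.val_lt z), ZMod.natCast_zmod_val z⟩
  have h1 : ∑ x ∈ range m, jacobiSym (α + β * (x : ℤ)) m =
      ∑ x ∈ range m, (fun z : ZMod m => g (α + β * z)) (x : ZMod m) := by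
    refine sum_congr rfl fun x _ => ?_
    rw [← hgc]
    simp
  rw [h1, hcast fun z : ZMod m => g (α + β * z)]
  obtain ⟨r, s, hrs⟩ := hβ
  have hrb : (r : ZMod m) * (β : ZMod m) = 1 := by
    have h2 := congrArg (fun t : ℤ => (t : ZMod m)) hrs
    push_cast at h2
    rw [ZMod.natCast_self, mul_zero, add_zero] at h2
    exact h2
  have h2 : ∑ z : ZMod m, g (α + β * z) = ∑ z : ZMod m, g z := by
    refine Fintype.sum_bijective (fun z : ZMod m => (α : ZMod m) + β * z) ?_ _ _ fun _ => rfl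
    refine ⟨fun a b hab => ?_, fun y => ⟨(r : ZMod m) * (y - α), ?_⟩⟩
    · have h3 : (α : ZMod m) + β * a = α + β * b := hab
      have h4 : (r : ZMod m) * (β * a) = r * (β * b) := by
        rw [add_left_cancel h3]
      rw [← mul_assoc, ← mul_assoc, hrb, one_mul, one_mul] at h4
      exact h4
    · show (α : ZMod m) + β * ((r : ZMod m) * (y - α)) = y
      rw [← mul_assoc, mul_comm (β : ZMod m), hrb, one_mul]
      ring
  rw [h2]
  have hcu : IsUnit (u : ZMod m) := by
    rw [ZMod.isUnit_iff_coprime]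
    by_contra hc
    have : jacobiSym (u : ℤ) m = 0 := by
      rw [jacobiSym.eq_zero_iff_not_coprime, Int.gcd_natCast_natCast]
      exact hc
    rw [this] at hu
    norm_num at hu
  obtain ⟨U, hU⟩ := hcu
  have h3 : ∑ z : ZMod m, g z = ∑ z : ZMod m, g (u * z) := by
    rw [← hU]
    exact (Fintype.sum_bijective (fun z : ZMod m => (U : ZMod m) * z)
      (Units.mulLeft_bijective U) _ _ fun _ => rfl).symm
  have h4 : ∀ z : ZMod m, g (u * z) = -g z := by
    intro z
    have h5 : (u : ZMod m) * z = (((u : ℤ) * (z.val : ℤ) : ℤ) : ZMod m) := by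
      push_cast
      rw [ZMod.natCast_zmod_val]
    rw [h5, hgc, jacobiSym.mul_left, hu]
    simp [hg]
  rw [sum_congr rfl fun z _ => h4 z, sum_neg_distrib] at h3
  omega

lemma abs_jac_le (a : ℤ) (n : ℕ) : |jacobiSym a n| ≤ 1 := by
  rcases jacobiSym.trichotomy a n with h | h | h <;> rw [h] <;> norm_num

/-- one class -/
lemma one_class {k : ℕ} (hk : Odd k) (hks : ¬ IsSquare k) (u N q a : ℕ) (hq : 0 < q)
    (hqk : q.Coprime k) :
    |∑ A ∈ (Ioc u N).filter (fun A => A ≡ a [MOD q]), jacobiSym (1 - 4 * (A : ℤ)) k| ≤ k := by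
  set F := (Ioc u N).filter (fun A => A ≡ a [MOD q]) with hF
  rcases F.eq_empty_or_nonempty with h0 | hne
  · rw [h0]
    simp
  obtain ⟨A0, hA0, hmin⟩ := F.exists_min_image id hne
  have hA0' := hA0
  rw [hF, mem_filter, mem_Ioc] at hA0'
  obtain ⟨⟨hu, hN⟩, hmod⟩ := hA0'
  have hsum : ∑ A ∈ F, jacobiSym (1 - 4 * (A : ℤ)) k =
      ∑ t ∈ range ((N - A0) / q + 1), jacobiSym ((1 - 4 * (A0 : ℤ)) + (-4 * (q : ℤ)) * (t : ℤ)) k := by
    symm
    refine sum_bij (fun t _ => A0 + q * t) ?_ ?_ ?_ ?_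
    · intro t ht
      rw [mem_range] at ht
      have h1 : q * t ≤ N - A0 := by
        have h2 : t ≤ (N - A0) / q := by omega
        calc q * t ≤ q * ((N - A0) / q) := Nat.mul_le_mul_left q h2
          _ ≤ N - A0 := Nat.mul_div_le _ _
      rw [hF, mem_filter, mem_Ioc]
      refine ⟨⟨by omega, by omega⟩, ?_⟩
      have h2 : A0 + q * t ≡ A0 [MOD q] := by
        unfold Nat.ModEq
        rw [Nat.add_mul_mod_self_left]
      exact h2.trans hmod
    · intro t _ s _ h
      have h1 : q * t = q * s := by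
        have : A0 + q * t = A0 + q * s := h
        omega
      exact Nat.eq_of_mul_eq_mul_left hq h1
    · intro A hA
      have hle : A0 ≤ A := hmin A hA
      rw [hF, mem_filter, mem_Ioc] at hA
      obtain ⟨⟨h1, h2⟩, h3⟩ := hA
      have h4 : q ∣ A - A0 := (Nat.modEq_iff_dvd' hle).1 (hmod.trans h3.symm)
      obtain ⟨t, ht⟩ := h4
      refine ⟨t, ?_, by show A0 + q * t = A; omega⟩
      rw [mem_range]
      have h5 : t ≤ (N - A0) / q := by
        rw [Nat.le_div_iff_mul_le hq, mul_comm]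
        omega
      omega
    · intro t _
      congr 1
      push_cast
      ring
  rw [hsum]
  have hcop : IsCoprime (-4 * (q : ℤ)) (k : ℤ) := by
    have h4 : IsCoprime (4 : ℤ) (k : ℤ) := by
      have : Nat.Coprime 4 k := by
        have h2 : Nat.Coprime 2 k := (Nat.coprime_two_left).2 hk
        exact Nat.Coprime.pow_left 2 h2
      exact_mod_cast Nat.isCoprime_iff_coprime.2 this
    have h5 : IsCoprime (q : ℤ) (k : ℤ) := Nat.isCoprime_iff_coprime.2 hqk
    have h6 : IsCoprime (-4 : ℤ) (k : ℤ) := h4.neg_left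
    exact h6.mul_left h5
  refine abs_sum_le_of_period (f := fun t : ℕ =>
    jacobiSym ((1 - 4 * (A0 : ℤ)) + (-4 * (q : ℤ)) * (t : ℤ)) k) hk.pos ?_
    (jac_affine hk hks _ _ hcop) (fun t => abs_jac_le _ _) _
  intro x
  refine jacobiSym.mod_left' ?_
  refine Int.emod_eq_emod_iff_emod_sub_eq_zero.2 ?_
  push_cast
  rw [show (1 - 4 * (A0 : ℤ) + -4 * (q : ℤ) * ((k : ℤ) + x) - (1 - 4 * (A0 : ℤ) + -4 * (q : ℤ) * x)) =
    (k : ℤ) * (-4 * q) by ring]
  exact Int.mul_emod_right _ _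

/-! ### The classes modulo one prime -/

/-- the classes modulo `p` -/
def cls (σ : ℤ) (p : ℕ) : Finset ℕ := (range p).filter (fun c => jacobiSym (1 - 4 * (c : ℤ)) p = σ)

lemma card_cls {σ : ℤ} (hσ : σ = 1 ∨ σ = -1) {p : ℕ} (hp : p.Prime) (hp2 : p ≠ 2) :
    (cls σ p).card = (p - 1) / 2 := by
  have hfact : Fact p.Prime := ⟨hp⟩
  have hodd : Odd p := hp.odd_of_ne_two hp2
  have hsq : ¬ IsSquare p := hp.prime.not_isSquare
  have hcop : IsCoprime (-4 : ℤ) (p : ℤ) := by
    have : Nat.Coprime 4 p := by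
      have h2 : Nat.Coprime 2 p := (Nat.coprime_two_left).2 hodd
      exact Nat.Coprime.pow_left 2 h2
    have h4 : IsCoprime (4 : ℤ) (p : ℤ) := by exact_mod_cast Nat.isCoprime_iff_coprime.2 this
    exact h4.neg_left
  have h1 : ∑ x ∈ range p, jacobiSym (1 - 4 * (x : ℤ)) p = 0 := by
    have := jac_affine hodd hsq 1 (-4) hcop
    rw [← this]
    refine sum_congr rfl fun x _ => ?_
    congr 1
  -- exactly one zero
  have h2 : ∑ x ∈ range p, (jacobiSym (1 - 4 * (x : ℤ)) p) ^ 2 = (p : ℤ) - 1 := by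
    have hz : ∀ x : ℕ, (jacobiSym (1 - 4 * (x : ℤ)) p) ^ 2 =
        1 - (if (p : ℤ) ∣ 1 - 4 * (x : ℤ) then 1 else 0) := by
      intro x
      split_ifs with h
      · have h3 : jacobiSym (1 - 4 * (x : ℤ)) p = 0 := by
          rw [jacobiSym.eq_zero_iff_not_coprime]
          intro hc
          have h4 : p ∣ Int.gcd (1 - 4 * (x : ℤ)) p := Int.natCast_dvd_natCast.1
            (Int.dvd_coe_gcd h (dvd_refl _))
          rw [hc] at h4
          exact hp.one_lt.ne' (Nat.dvd_one.1 h4)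
        rw [h3]; norm_num
      · have h3 : jacobiSym (1 - 4 * (x : ℤ)) p ^ 2 = 1 := by
          refine jacobiSym.sq_one ?_
          rw [Int.gcd_comm]
          have := (Nat.Prime.coprime_iff_not_dvd hp).2 (fun h5 => h (Int.natCast_dvd.2 h5))
          exact this
        rw [h3]; norm_num
    rw [sum_congr rfl fun x _ => hz x, sum_sub_distrib]
    have h3 : ∑ x ∈ range p, (if (p : ℤ) ∣ 1 - 4 * (x : ℤ) then (1 : ℤ) else 0) = 1 := by
      obtain ⟨r, s, hrs⟩ := hcop
      -- the solution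
      set x0 : ℕ := ((-r) % (p : ℤ)).toNat with hx0
      have hp0 : (0 : ℤ) < p := by exact_mod_cast hp.pos
      have hx0c : (x0 : ℤ) = (-r) % (p : ℤ) := by
        rw [hx0, Int.toNat_of_nonneg (Int.emod_nonneg _ hp0.ne')]
      have hx0lt : x0 < p := by
        have : (x0 : ℤ) < p := by rw [hx0c]; exact Int.emod_lt_of_pos _ hp0
        exact_mod_cast this
      have hdv : (p : ℤ) ∣ (x0 : ℤ) + r := by
        rw [hx0c]
        have h5 := Int.emod_add_mul_ediv (-r) (p : ℤ)
        exact ⟨-((-r) / (p : ℤ)), by linear_combination h5⟩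
      have hdv0 : (p : ℤ) ∣ 1 - 4 * (x0 : ℤ) := by
        have h5 : 1 - 4 * (x0 : ℤ) = (-4) * ((x0 : ℤ) + r) + s * p := by linear_combination -hrs
        rw [h5]
        exact dvd_add (dvd_mul_of_dvd_right hdv _) (dvd_mul_left _ _)
      rw [sum_eq_single_of_mem x0 (mem_range.2 hx0lt)]
      · rw [if_pos hdv0]
      · intro b hb hne
        rw [mem_range] at hb
        rw [if_neg]
        intro hdb
        have h5 : (p : ℤ) ∣ 4 * ((b : ℤ) - x0) := by
          have := dvd_sub hdv0 hdb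
          rwa [show (1 - 4 * (x0 : ℤ)) - (1 - 4 * (b : ℤ)) = 4 * ((b : ℤ) - x0) by ring] at this
        have h6 : IsCoprime (p : ℤ) 4 := by
          have : IsCoprime (-4 : ℤ) (p : ℤ) := ⟨r, s, hrs⟩
          have := this.symm.neg_right
          simpa using this
        have h7 : (p : ℤ) ∣ (b : ℤ) - x0 := h6.dvd_of_dvd_mul_left h5
        have h8 : (b : ℤ) - x0 = 0 := by
          refine Int.eq_zero_of_abs_lt_dvd h7 ?_
          rw [abs_lt]
          constructor <;> omega
        omega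
    rw [h3]
    simp
  -- counting
  have hv : ∀ x : ℕ, (2 : ℤ) * (if jacobiSym (1 - 4 * (x : ℤ)) p = σ then 1 else 0) =
      (jacobiSym (1 - 4 * (x : ℤ)) p) ^ 2 + σ * jacobiSym (1 - 4 * (x : ℤ)) p := by
    intro x
    rcases hσ with rfl | rfl <;>
      rcases jacobiSym.trichotomy (1 - 4 * (x : ℤ)) p with h | h | h <;> rw [h] <;> norm_num
  have h3 : (2 : ℤ) * (cls σ p).card = (p : ℤ) - 1 := by
    have h4 : ((cls σ p).card : ℤ) = ∑ x ∈ range p,
        (if jacobiSym (1 - 4 * (x : ℤ)) p = σ then (1 : ℤ) else 0) := by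
      rw [cls, card_filter]
      push_cast
      rfl
    rw [h4, mul_sum, sum_congr rfl fun x _ => hv x, sum_add_distrib, h2, ← mul_sum, h1, mul_zero,
      add_zero]
  have := hp.pos
  omega

/-! ### All primes of a finite set -/

lemma jac_mod {A c p : ℕ} (h : A ≡ c [MOD p]) :
    jacobiSym (1 - 4 * (A : ℤ)) p = jacobiSym (1 - 4 * (c : ℤ)) p := by
  refine jacobiSym.mod_left' ?_
  have h1 : (A : ℤ) ≡ c [ZMOD p] := (Int.natCast_modEq_iff).2 h
  exact (Int.ModEq.refl 1).sub ((Int.ModEq.refl 4).mul h1)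

lemma classes {σ : ℤ} (hσ : σ = 1 ∨ σ = -1) {k : ℕ} (hk : Odd k) (hks : ¬ IsSquare k) (u N : ℕ)
    (Z : Finset ℕ) : (∀ p ∈ Z, p.Prime ∧ p ≠ 2 ∧ p.Coprime k) → ∀ q a : ℕ, 0 < q → q.Coprime k →
    (∀ p ∈ Z, ¬ p ∣ q) →
    |∑ A ∈ (Ioc u N).filter (fun A => A ≡ a [MOD q] ∧ ∀ p ∈ Z, jacobiSym (1 - 4 * (A : ℤ)) p = σ),
      jacobiSym (1 - 4 * (A : ℤ)) k| ≤ ((∏ p ∈ Z, (p - 1) / 2 : ℕ) : ℤ) * k := by
  classical
  induction Z using Finset.induction_on with
  | empty =>
    intro _ q a hq hqk _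
    have := one_class hk hks u N q a hq hqk
    simpa using this
  | insert p Z hpZ ih =>
    intro hZ q a hq hqk hqZ
    obtain ⟨hp, hp2, hpk⟩ := hZ p (mem_insert_self p Z)
    set F := (Ioc u N).filter (fun A => A ≡ a [MOD q] ∧ ∀ p' ∈ insert p Z,
      jacobiSym (1 - 4 * (A : ℤ)) p' = σ) with hF
    have hmaps : ∀ A ∈ F, A % p ∈ cls σ p := by
      intro A hA
      rw [hF, mem_filter] at hA
      rw [cls, mem_filter, mem_range]
      refine ⟨Nat.mod_lt _ hp.pos, ?_⟩
      rw [jac_mod (Nat.mod_modEq A p)]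
      exact hA.2.2 p (mem_insert_self p Z)
    rw [← sum_fiberwise_of_maps_to hmaps]
    have hcopq : q.Coprime p := by
      rw [Nat.coprime_comm, Nat.Prime.coprime_iff_not_dvd hp]
      exact hqZ p (mem_insert_self p Z)
    have hin : ∀ c ∈ cls σ p, |∑ A ∈ F.filter (fun A => A % p = c), jacobiSym (1 - 4 * (A : ℤ)) k| ≤
        ((∏ p ∈ Z, (p - 1) / 2 : ℕ) : ℤ) * k := by
      intro c hc
      rw [cls, mem_filter, mem_range] at hc
      obtain ⟨a', ha1, ha2⟩ := Nat.chineseRemainder hcopq a c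
      have hset : F.filter (fun A => A % p = c) = (Ioc u N).filter (fun A => A ≡ a' [MOD q * p] ∧
          ∀ p ∈ Z, jacobiSym (1 - 4 * (A : ℤ)) p = σ) := by
        ext A
        rw [hF, mem_filter, mem_filter, mem_filter]
        constructor
        · rintro ⟨⟨h1, h2, h3⟩, h4⟩
          refine ⟨h1, ?_, fun p' hp' => h3 p' (mem_insert_of_mem hp')⟩
          rw [← Nat.modEq_and_modEq_iff_modEq_mul hcopq]
          refine ⟨h2.trans ha1.symm, ?_⟩
          have h5 : A ≡ c [MOD p] := by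
            unfold Nat.ModEq
            rw [h4, Nat.mod_eq_of_lt hc.1]
          exact h5.trans ha2.symm
        · rintro ⟨h1, h2, h3⟩
          rw [← Nat.modEq_and_modEq_iff_modEq_mul hcopq] at h2
          have h5 : A ≡ c [MOD p] := h2.2.trans ha2
          refine ⟨⟨h1, h2.1.trans ha1, ?_⟩, ?_⟩
          · intro p' hp'
            rcases mem_insert.1 hp' with rfl | h6
            · rw [jac_mod h5]
              exact hc.2
            · exact h3 p' h6
          · have : A % p = c % p := h5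
            rw [this, Nat.mod_eq_of_lt hc.1]
      rw [hset]
      refine ih (fun p' hp' => hZ p' (mem_insert_of_mem hp')) (q * p) a' (Nat.mul_pos hq hp.pos)
        (Nat.Coprime.mul_left hqk hpk) ?_
      intro p' hp' hdvd
      have hp'p := (hZ p' (mem_insert_of_mem hp')).1
      rcases hp'p.dvd_mul.1 hdvd with h6 | h6
      · exact hqZ p' (mem_insert_of_mem hp') h6
      · have : p' = p := (Nat.prime_dvd_prime_iff_eq hp'p hp).1 h6
        rw [this] at hp'
        exact hpZ hp'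
    refine (abs_sum_le_sum_abs _ _).trans ((sum_le_sum hin).trans ?_)
    rw [sum_const, card_cls hσ hp hp2, prod_insert hpZ, nsmul_eq_mul]
    push_cast
    rw [mul_assoc]

lemma mem_op {z p : ℕ} : p ∈ op z ↔ (3 ≤ p ∧ p ≤ z) ∧ p.Prime := by
  rw [op, mem_filter, mem_Icc]

theorem ort : S_ORT := by
  intro σ z u N k hσ hu hk hkP hks
  have h1 : AS σ z u N = (Ioc u N).filter (fun A => A ≡ 1 [MOD 2] ∧
      ∀ p ∈ op z, jacobiSym (1 - 4 * (A : ℤ)) p = σ) := by
    rw [AS]
    refine filter_congr fun A _ => ?_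
    have hodd : Odd A ↔ A ≡ 1 [MOD 2] := by
      rw [Nat.odd_iff]
      unfold Nat.ModEq
      norm_num
    rw [← hodd]
    refine and_congr_right fun hA => ?_
    refine forall₂_congr fun p hp => ?_
    rw [mem_op] at hp
    rw [chi_odd hA (hp.2.odd_of_ne_two (by omega))]
  have h2 := classes hσ hk hks u N (op z) (fun p hp => by
    have hp' := mem_op.1 hp
    refine ⟨hp'.2, by omega, ?_⟩
    have : p ∣ PZ z := dvd_prod_of_mem (fun p => p) hp
    exact (Nat.Coprime.coprime_dvd_right this hkP).symm) 2 1 two_pos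
    ((Nat.coprime_two_left).2 hk) (fun p hp hdvd => by
      have hp' := mem_op.1 hp
      have := Nat.le_of_dvd two_pos hdvd
      omega)
  have h3 : ∑ A ∈ AS σ z u N, (chi A k : ℝ) =
      ((∑ A ∈ AS σ z u N, jacobiSym (1 - 4 * (A : ℤ)) k : ℤ) : ℝ) := by
    push_cast
    refine sum_congr rfl fun A hA => ?_
    rw [AS, mem_filter] at hA
    rw [chi_odd hA.2.1 hk]
  rw [h3, h1]
  have h4 : (((∏ p ∈ op z, (p - 1) / 2 : ℕ) : ℤ) * k : ℤ) = ((KZ z : ℕ) : ℤ) * k := rfl
  rw [h4] at h2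
  exact_mod_cast h2

/-! ### VAR -/

lemma sq_inj {a b : ℕ} (ha : Squarefree a) (hb : Squarefree b) (h : IsSquare (a * b)) : a = b := by
  obtain ⟨m, hm⟩ := h
  have ha0 := ha.ne_zero
  have hb0 := hb.ne_zero
  have hm0 : m ≠ 0 := by
    rintro rfl
    rw [mul_zero] at hm
    exact mul_ne_zero ha0 hb0 hm
  refine Nat.eq_of_factorization_eq ha0 hb0 fun p => ?_
  have h1 := congrArg (fun n => n.factorization p) hm
  simp only [Nat.factorization_mul ha0 hb0, Nat.factorization_mul hm0 hm0, Finsupp.add_apply] at h1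
  have h2 := ha.natFactorization_le_one p
  have h3 := hb.natFactorization_le_one p
  omega

theorem var : S_ORT → S_VAR := by
  classical
  intro hO σ z u N hσ hu S b hS
  have h1 : ∀ A : ℕ, (∑ k ∈ S, b k * chi A k) ^ 2 =
      ∑ k ∈ S, ∑ l ∈ S, (b k * b l) * (chi A (k * l) : ℝ) := by
    intro A
    rw [sq, sum_mul_sum]
    refine sum_congr rfl fun x _ => sum_congr rfl fun y _ => ?_
    rw [chi_mul]
    push_cast
    ring
  rw [sum_congr rfl fun A _ => h1 A, sum_comm]
  have h2 : ∀ k ∈ S, ∑ A ∈ AS σ z u N, ∑ l ∈ S, (b k * b l) * (chi A (k * l) : ℝ) ≤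
      (AS σ z u N).card * b k ^ 2 + ∑ l ∈ S, KZ z * ((|b k| * k) * (|b l| * l)) := by
    intro k hk
    rw [sum_comm]
    have h3 : ∀ l ∈ S, ∑ A ∈ AS σ z u N, (b k * b l) * (chi A (k * l) : ℝ) ≤
        (if l = k then (AS σ z u N).card * b k ^ 2 else 0) + KZ z * ((|b k| * k) * (|b l| * l)) := by
      intro l hl
      rw [← mul_sum]
      have hnn : 0 ≤ (KZ z : ℝ) * ((|b k| * k) * (|b l| * l)) := by positivity
      by_cases hkl : l = k
      · rw [if_pos hkl]
        subst hkl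
        have h4 : ∑ A ∈ AS σ z u N, (chi A (l * l) : ℝ) ≤ (AS σ z u N).card := by
          have : ∀ A ∈ AS σ z u N, (chi A (l * l) : ℝ) ≤ 1 := by
            intro A _
            have := (le_abs_self _).trans (abs_chi_le A (l * l))
            exact_mod_cast this
          refine (sum_le_sum this).trans ?_
          simp
        have h5 : (b l * b l) * ∑ A ∈ AS σ z u N, (chi A (l * l) : ℝ) ≤
            (b l * b l) * (AS σ z u N).card := mul_le_mul_of_nonneg_left h4 (mul_self_nonneg _)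
        nlinarith
      · rw [if_neg hkl, zero_add]
        obtain ⟨o1, s1, c1⟩ := hS k hk
        obtain ⟨o2, s2, c2⟩ := hS l hl
        have h4 := hO σ z u N (k * l) hσ hu (o1.mul o2) (Nat.Coprime.mul_left c1 c2)
          (fun h => hkl (sq_inj s1 s2 h).symm)
        refine (le_abs_self _).trans ?_
        rw [abs_mul, abs_mul]
        calc |b k| * |b l| * |∑ A ∈ AS σ z u N, (chi A (k * l) : ℝ)| ≤
            |b k| * |b l| * (KZ z * ((k * l : ℕ) : ℝ)) :=
              mul_le_mul_of_nonneg_left h4 (by positivity)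
          _ = _ := by push_cast; ring
    refine (sum_le_sum h3).trans ?_
    rw [sum_add_distrib, sum_ite_eq' S k, if_pos hk]
  have h5 : ∑ A ∈ AS σ z u N, ∑ k ∈ S, ∑ l ∈ S, (b k * b l) * (chi A (k * l) : ℝ) =
      ∑ k ∈ S, ∑ A ∈ AS σ z u N, ∑ l ∈ S, (b k * b l) * (chi A (k * l) : ℝ) := sum_comm
  rw [sum_comm, h5]
  refine (sum_le_sum h2).trans ?_
  rw [sum_add_distrib, ← mul_sum]
  refine add_le_add le_rfl (le_of_eq ?_)
  rw [sq, sum_mul_sum, mul_sum]
  refine sum_congr rfl fun k _ => ?_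
  rw [mul_sum]

end Pool.Agent.P8H44.EX
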